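import Mathlib

/-!
# Base file for the pre-cutoff counterexample (MP_cf7fa9_pr)

Random words over the alphabet `Slot = Fin 7 × Bool` (14 equally likely letters), expectations of
functionals of words, deterministic machines driven by words, and the potential-function lemmas.
-/

namespace Pool.Agent.Helper55.PC

open Finset
open scoped Classical

/-- A slot: index `0..6` of a generator (`0` = cursor right, `1` = cursor left, `2` = toggle the
lamp at the cursor, `3` = the generator `b`, `4, 5, 6` = generators `s, q, q⁻¹` of the finite group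
`R`) together with a bit (`true` = apply the generator, `false` = stay). -/
abbrev Slot : Type := Fin 7 × Bool

/-- Extension of a finite word by the (harmless) letter `(0, false)`. -/
def ext {t : ℕ} (w : Fin t → Slot) : ℕ → Slot :=
  fun s => if h : s < t then w ⟨s, h⟩ else (0, false)

/-- Expectation over a uniformly random word of length `t`. -/
noncomputable def Ex (t : ℕ) (f : (ℕ → Slot) → ℝ) : ℝ :=
  (∑ w : Fin t → Slot, f (ext w)) / 14 ^ t

/-- Probability over a uniformly random word of length `t`. -/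
noncomputable def Pr (t : ℕ) (E : (ℕ → Slot) → Prop) : ℝ :=
  Ex t (fun w => if E w then 1 else 0)

/-- State at time `s` of a deterministic machine driven by the word `w`. -/
def run {D : Type*} (st : Slot → D → D) (d : D) (w : ℕ → Slot) : ℕ → D
  | 0 => d
  | s + 1 => st (w s) (run st d w s)

/-- Cursor displacement caused by one slot. -/
def mv (a : Slot) : ℤ := if a = (0, true) then 1 else if a = (1, true) then -1 else 0

/-- Total (lifted) cursor displacement at time `s`. -/
def cur (w : ℕ → Slot) (s : ℕ) : ℤ := ∑ i ∈ range s, mv (w i)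

/-- Distance to `0` on the cycle `ZMod ℓ`. -/
def dst {ℓ : ℕ} (v : ZMod ℓ) : ℕ := min v.val (ℓ - v.val)

/-- A pattern: `n ≥ 1` consecutive conditions on slots, each satisfiable and each forcing the
cursor to stay. -/
structure Pat where
  n : ℕ
  P : ℕ → Slot → Prop
  pos : 0 < n
  ex : ∀ i < n, ∃ a, P i a
  still : ∀ i < n, ∀ a, P i a → mv a = 0

/-- the pattern `W` occurs in the word `w` at times `s, s+1, ..., s + W.n - 1` -/
def Pat.occ (W : Pat) (w : ℕ → Slot) (s : ℕ) : Prop := ∀ i < W.n, W.P i (w (s + i))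

/-- the one-letter pattern of the class 2 (lamp toggle, any bit) -/
def patE : Pat where
  n := 1
  P := fun _ a => a.1 = 2
  pos := one_pos
  ex := fun _ _ => ⟨(2, true), rfl⟩
  still := by
    intro i _ a ha
    unfold mv
    have h0 : a ≠ (0, true) := fun h => by rw [h] at ha; exact absurd ha (by decide)
    have h1 : a ≠ (1, true) := fun h => by rw [h] at ha; exact absurd ha (by decide)
    simp [h0, h1]

/-- dynamics of the `R`-part: right multiplication by `s, q, q⁻¹` at the slots `4, 5, 6` -/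
def rstep {R : Type*} [Group R] (s q : R) (a : Slot) (ρ : R) : R :=
  if a = (4, true) then ρ * s else if a = (5, true) then ρ * q
  else if a = (6, true) then ρ * q⁻¹ else ρ

/-- extension by `false` of a finite family of bits -/
def extB {t : ℕ} (η : Fin t → Bool) : ℕ → Bool :=
  fun s => if h : s < t then η ⟨s, h⟩ else false

/-- `0/1` value of a bit in `ZMod 2`. -/
def bt (b : Bool) : ZMod 2 := if b then 1 else 0

/-- sign of an element of `ZMod 2` -/
def sg (z : ZMod 2) : ℝ := if z = 0 then 1 else -1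

/-- Flip the bits given by `η` at all slots of class `i`. -/
def rs (i : Fin 7) (η : ℕ → Bool) (w : ℕ → Slot) : ℕ → Slot :=
  fun s => if (w s).1 = i then ((w s).1, xor (w s).2 (η s)) else w s

/-! ## Elementary properties of `Ex` and `Pr` -/

lemma card_slot : Fintype.card Slot = 14 := by simp [Slot]

lemma Ex_mono {t : ℕ} {f g : (ℕ → Slot) → ℝ} (h : ∀ w, f w ≤ g w) : Ex t f ≤ Ex t g := by
  unfold Ex
  gcongr with w _
  exact h _

lemma Ex_add {t : ℕ} (f g : (ℕ → Slot) → ℝ) : Ex t (fun w => f w + g w) = Ex t f + Ex t g := by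
  unfold Ex
  rw [sum_add_distrib, add_div]

lemma Ex_sub {t : ℕ} (f g : (ℕ → Slot) → ℝ) : Ex t (fun w => f w - g w) = Ex t f - Ex t g := by
  unfold Ex
  rw [sum_sub_distrib, sub_div]

lemma Ex_mul_left {t : ℕ} (c : ℝ) (f : (ℕ → Slot) → ℝ) : Ex t (fun w => c * f w) = c * Ex t f := by
  unfold Ex
  rw [← mul_sum, mul_div_assoc]

lemma Ex_mul_right {t : ℕ} (c : ℝ) (f : (ℕ → Slot) → ℝ) : Ex t (fun w => f w * c) = Ex t f * c := by
  unfold Ex
  rw [← sum_mul]; ring

lemma Ex_neg {t : ℕ} (f : (ℕ → Slot) → ℝ) : Ex t (fun w => - f w) = - Ex t f := by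
  unfold Ex
  rw [sum_neg_distrib, neg_div]

lemma Ex_const {t : ℕ} (c : ℝ) : Ex t (fun _ => c) = c := by
  unfold Ex
  rw [sum_const, card_univ, Fintype.card_fun, card_slot]
  simp

lemma Ex_sum {t : ℕ} {ι : Type*} (I : Finset ι) (f : ι → (ℕ → Slot) → ℝ) :
    Ex t (fun w => ∑ i ∈ I, f i w) = ∑ i ∈ I, Ex t (f i) := by
  unfold Ex
  rw [sum_comm, sum_div]

lemma Ex_nonneg {t : ℕ} {f : (ℕ → Slot) → ℝ} (h : ∀ w, 0 ≤ f w) : 0 ≤ Ex t f := by
  unfold Ex
  exact div_nonneg (sum_nonneg fun w _ => h _) (by positivity)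

lemma abs_Ex_le {t : ℕ} (f : (ℕ → Slot) → ℝ) : |Ex t f| ≤ Ex t (fun w => |f w|) := by
  unfold Ex
  rw [abs_div, abs_of_pos (show (0:ℝ) < 14 ^ t by positivity)]
  gcongr
  exact abs_sum_le_sum_abs _ _

lemma Ex_zero (f : (ℕ → Slot) → ℝ) : Ex 0 f = f (fun _ => (0, false)) := by
  unfold Ex
  simp
  congr 1

lemma Pr_nonneg {t : ℕ} (E : (ℕ → Slot) → Prop) : 0 ≤ Pr t E :=
  Ex_nonneg fun w => by split_ifs <;> norm_num

lemma Pr_mono {t : ℕ} {E F : (ℕ → Slot) → Prop} (h : ∀ w, E w → F w) : Pr t E ≤ Pr t F := by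
  refine Ex_mono fun w => ?_
  by_cases hE : E w
  · simp [hE, h w hE]
  · simp only [hE, if_false]; split_ifs <;> norm_num

lemma Pr_le_one {t : ℕ} (E : (ℕ → Slot) → Prop) : Pr t E ≤ 1 := by
  calc Pr t E ≤ Ex t (fun _ => 1) := Ex_mono fun w => by split_ifs <;> norm_num
    _ = 1 := Ex_const 1

lemma Pr_congr {t : ℕ} {E F : (ℕ → Slot) → Prop} (h : ∀ w, E w ↔ F w) : Pr t E = Pr t F :=
  le_antisymm (Pr_mono fun w => (h w).1) (Pr_mono fun w => (h w).2)

lemma Pr_not {t : ℕ} (E : (ℕ → Slot) → Prop) : Pr t (fun w => ¬ E w) = 1 - Pr t E := by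
  unfold Pr
  rw [eq_sub_iff_add_eq, ← Ex_add]
  refine Eq.trans ?_ (Ex_const (t := t) 1)
  congr 1
  funext w; by_cases h : E w <;> simp [h]

lemma Pr_or_le {t : ℕ} (E F : (ℕ → Slot) → Prop) :
    Pr t (fun w => E w ∨ F w) ≤ Pr t E + Pr t F := by
  unfold Pr
  rw [← Ex_add]
  refine Ex_mono fun w => ?_
  by_cases h : E w <;> by_cases h' : F w <;> simp [h, h']

lemma Pr_exists_le {t : ℕ} {ι : Type*} (I : Finset ι) (E : ι → (ℕ → Slot) → Prop) :
    Pr t (fun w => ∃ i ∈ I, E i w) ≤ ∑ i ∈ I, Pr t (E i) := by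
  unfold Pr
  rw [← Ex_sum]
  refine Ex_mono fun w => ?_
  split_ifs with h
  · obtain ⟨i, hi, hE⟩ := h
    calc (1:ℝ) = if E i w then 1 else 0 := by simp [hE]
      _ ≤ _ := single_le_sum (f := fun i => if E i w then (1:ℝ) else 0)
        (fun j _ => by split_ifs <;> norm_num) hi
  · exact sum_nonneg fun j _ => by split_ifs <;> norm_num

/-- Markov inequality. -/
lemma Pr_le_Ex {t : ℕ} {f : (ℕ → Slot) → ℝ} {E : (ℕ → Slot) → Prop} (hf : ∀ w, 0 ≤ f w)
    {c : ℝ} (hc : 0 < c) (h : ∀ w, E w → c ≤ f w) : Pr t E ≤ Ex t f / c := by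
  rw [le_div_iff₀ hc]
  unfold Pr
  rw [← Ex_mul_right]
  refine Ex_mono fun w => ?_
  split_ifs with hE
  · simpa using h w hE
  · simpa using hf w

/-- Only the first `t` letters matter (values at words `ext w`). -/
lemma Ex_congr {t : ℕ} {f g : (ℕ → Slot) → ℝ}
    (h : ∀ w : ℕ → Slot, (∀ s, t ≤ s → w s = (0, false)) → f w = g w) : Ex t f = Ex t g := by
  unfold Ex
  congr 1
  refine sum_congr rfl fun w _ => h _ fun s hs => ?_
  simp [ext, not_lt.2 hs]

lemma Pr_congr' {t : ℕ} {E F : (ℕ → Slot) → Prop}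
    (h : ∀ w : ℕ → Slot, (∀ s, t ≤ s → w s = (0, false)) → (E w ↔ F w)) : Pr t E = Pr t F :=
  Ex_congr fun w hw => by simp [h w hw]

/-- Averaging over the last letter. -/
lemma Ex_succ (t : ℕ) (f : (ℕ → Slot) → ℝ) :
    Ex (t + 1) f = Ex t (fun w => (∑ a : Slot, f (Function.update w t a)) / 14) := by
  unfold Ex
  rw [← sum_div, div_div, ← pow_succ']
  congr 1
  rw [← (Fin.snocEquiv (fun _ : Fin (t + 1) => Slot)).sum_comp, Fintype.sum_prod_type, sum_comm]
  refine sum_congr rfl fun w _ => sum_congr rfl fun a _ => ?_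
  congr 1
  funext s
  simp only [ext, Fin.snocEquiv, Equiv.coe_fn_mk]
  rcases lt_trichotomy s t with h | h | h
  · rw [dif_pos (by omega), Function.update_of_ne (by omega)]
    have : (⟨s, by omega⟩ : Fin (t + 1)) = Fin.castSucc ⟨s, h⟩ := rfl
    rw [this, Fin.snoc_castSucc]
    simp [ext, h]
  · subst h
    rw [dif_pos (by omega)]
    have : (⟨s, by omega⟩ : Fin (s + 1)) = Fin.last s := rfl
    rw [this, Fin.snoc_last]; simp
  · rw [dif_neg (by omega), Function.update_of_ne (by omega)]
    simp [ext, not_lt.2 h.le]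

lemma run_congr {D : Type*} (st : Slot → D → D) (d : D) {w w' : ℕ → Slot} {t : ℕ}
    (h : ∀ s < t, w s = w' s) : run st d w t = run st d w' t := by
  induction t with
  | zero => rfl
  | succ t ih =>
    simp only [run]
    rw [h t (by omega), ih fun s hs => h s (by omega)]

lemma run_update {D : Type*} (st : Slot → D → D) (d : D) (w : ℕ → Slot) (t : ℕ) (a : Slot) :
    run st d (Function.update w t a) (t + 1) = st a (run st d w t) := by
  simp only [run, Function.update_self]
  rw [run_congr st d (w := Function.update w t a) (w' := w)]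
  intro s hs
  rw [Function.update_of_ne (by omega)]

lemma cur_succ (w : ℕ → Slot) (s : ℕ) : cur w (s + 1) = cur w s + mv (w s) := by
  simp [cur, sum_range_succ]

@[simp] lemma cur_zero (w : ℕ → Slot) : cur w 0 = 0 := by simp [cur]

lemma cur_congr {w w' : ℕ → Slot} {t : ℕ} (h : ∀ s < t, w s = w' s) : cur w t = cur w' t :=
  sum_congr rfl fun i hi => by rw [h i (mem_range.1 hi)]

lemma abs_mv_le (a : Slot) : |mv a| ≤ 1 := by
  unfold mv; split_ifs <;> simp

lemma run_inv {D : Type*} {st : Slot → D → D} {d : D} {w : ℕ → Slot} {I : D → Prop} (h0 : I d)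
    (hI : ∀ a e, I e → I (st a e)) (t : ℕ) : I (run st d w t) := by
  induction t with
  | zero => exact h0
  | succ t ih => exact hI _ _ ih

/-- Potential lemma, additive form. -/
theorem Ex_run_le {D : Type*} (st : Slot → D → D) (d : D) (I : D → Prop) (h0 : I d)
    (hI : ∀ a e, I e → I (st a e)) (F : D → ℝ) (η : ℝ)
    (h : ∀ e, I e → (∑ a : Slot, F (st a e)) / 14 ≤ F e + η) (t : ℕ) :
    Ex t (fun w => F (run st d w t)) ≤ F d + t * η := by
  induction t with
  | zero => simp [Ex_zero, run]
  | succ t ih =>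
    rw [Ex_succ]
    calc Ex t (fun w => (∑ a : Slot, F (run st d (Function.update w t a) (t + 1))) / 14)
        ≤ Ex t (fun w => F (run st d w t) + η) := by
          refine Ex_mono fun w => ?_
          simp only [run_update]
          exact h _ (run_inv h0 hI t)
      _ = Ex t (fun w => F (run st d w t)) + η := by rw [Ex_add, Ex_const]
      _ ≤ F d + (t + 1 : ℕ) * η := by push_cast; linarith

/-- Potential lemma, multiplicative lower bound. -/
theorem Ex_run_ge {D : Type*} (st : Slot → D → D) (d : D) (I : D → Prop) (h0 : I d)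
    (hI : ∀ a e, I e → I (st a e)) (F : D → ℝ) (c : ℝ) (hc : 0 ≤ c)
    (h : ∀ e, I e → c * F e ≤ (∑ a : Slot, F (st a e)) / 14) (t : ℕ) :
    c ^ t * F d ≤ Ex t (fun w => F (run st d w t)) := by
  induction t with
  | zero => simp [Ex_zero, run]
  | succ t ih =>
    rw [Ex_succ]
    calc c ^ (t + 1) * F d = c * (c ^ t * F d) := by ring
      _ ≤ c * Ex t (fun w => F (run st d w t)) := by gcongr
      _ = Ex t (fun w => c * F (run st d w t)) := by rw [Ex_mul_left]
      _ ≤ _ := by
          refine Ex_mono fun w => ?_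
          simp only [run_update]
          exact h _ (run_inv h0 hI t)

/-- Expected absorption time lemma: if `A` is absorbing and the nonnegative potential `F` drops by
at least `1` on average outside `A`, then `P(not absorbed at time t) ≤ F d / t`. -/
theorem Pr_not_absorbed {D : Type*} (st : Slot → D → D) (d : D) (I : D → Prop) (h0 : I d)
    (hI : ∀ a e, I e → I (st a e)) (A : D → Prop) (hA : ∀ a e, I e → A e → A (st a e))
    (F : D → ℝ) (hF : ∀ e, I e → 0 ≤ F e)
    (h : ∀ e, I e → ¬ A e → (∑ a : Slot, F (st a e)) / 14 ≤ F e - 1) (t : ℕ) (ht : 0 < t) :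
    Pr t (fun w => ¬ A (run st d w t)) ≤ F d / t := by
  -- G = F outside A, 0 on A
  set G : D → ℝ := fun e => if A e then 0 else F e with hG
  have hGF : ∀ e, I e → G e ≤ F e := fun e he => by
    simp only [hG]; split_ifs
    · exact hF e he
    · exact le_rfl
  have hG0 : ∀ e, I e → 0 ≤ G e := fun e he => by
    simp only [hG]; split_ifs
    · exact le_rfl
    · exact hF e he
  have key : ∀ n : ℕ, Ex n (fun w => G (run st d w n)) + n * Pr n (fun w => ¬ A (run st d w n))
      ≤ F d := by
    intro n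
    induction n with
    | zero => simpa [Ex_zero, run] using hGF d h0
    | succ n ih =>
      have h1 : Ex (n + 1) (fun w => G (run st d w (n + 1))) ≤
          Ex n (fun w => G (run st d w n)) - Pr n (fun w => ¬ A (run st d w n)) := by
        rw [Ex_succ]
        unfold Pr
        rw [← Ex_sub]
        refine Ex_mono fun w => ?_
        simp only [run_update]
        have hIr : I (run st d w n) := run_inv h0 hI n
        by_cases hAr : A (run st d w n)
        · have : ∀ a : Slot, G (st a (run st d w n)) = 0 := fun a => by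
            simp [hG, hA a _ hIr hAr]
          simp [this, hAr, show G (run st d w n) = 0 by simp [hG, hAr]]
        · have h2 := h _ hIr hAr
          have h3 : (∑ a : Slot, G (st a (run st d w n))) / 14 ≤
              (∑ a : Slot, F (st a (run st d w n))) / 14 := by
            gcongr with a _
            exact hGF _ (hI _ _ hIr)
          have h4 : G (run st d w n) = F (run st d w n) := by simp [hG, hAr]
          simp only [hAr, not_false_eq_true, if_true]
          linarith
      have h2 : Pr (n + 1) (fun w => ¬ A (run st d w (n + 1))) ≤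
          Pr n (fun w => ¬ A (run st d w n)) := by
        unfold Pr
        rw [Ex_succ]
        refine Ex_mono fun w => ?_
        simp only [run_update]
        have hIr : I (run st d w n) := run_inv h0 hI n
        by_cases hAr : A (run st d w n)
        · have : ∀ a : Slot, A (st a (run st d w n)) := fun a => hA a _ hIr hAr
          simp [this, hAr]
        · simp only [hAr, not_false_eq_true, if_true]
          rw [div_le_one (by norm_num)]
          calc (∑ a : Slot, if ¬ A (st a (run st d w n)) then (1:ℝ) else 0)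
              ≤ ∑ _a : Slot, (1:ℝ) := sum_le_sum fun a _ => by split_ifs <;> norm_num
            _ = 14 := by simp
      have h3 : ((n:ℝ) + 1) * Pr (n + 1) (fun w => ¬ A (run st d w (n + 1))) ≤
          ((n:ℝ) + 1) * Pr n (fun w => ¬ A (run st d w n)) := by gcongr
      push_cast
      nlinarith [h1, h3, ih]
  have h1 := key t
  have h2 : 0 ≤ Ex t (fun w => G (run st d w t)) := Ex_nonneg fun w => hG0 _ (run_inv h0 hI t)
  have ht' : (0:ℝ) < t := by exact_mod_cast ht
  rw [le_div_iff₀ ht']
  linarith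

/-! ## Rerandomising bits -/

lemma bt_xor (a b : Bool) : bt (xor a b) = bt a + bt b := by
  cases a <;> cases b <;> decide

lemma sg_zero : sg 0 = 1 := by simp [sg]

lemma sg_add (a b : ZMod 2) : sg (a + b) = sg a * sg b := by
  have key : ∀ a b : ZMod 2, (a + b = 0 ↔ (a = 0 ↔ b = 0)) := by decide
  unfold sg
  by_cases ha : a = 0 <;> by_cases hb : b = 0 <;> simp [key, ha, hb]

lemma sg_mul_self (a : ZMod 2) : sg a * sg a = 1 := by
  unfold sg; split_ifs <;> norm_num

lemma abs_sg (a : ZMod 2) : |sg a| = 1 := by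
  unfold sg; split_ifs <;> norm_num

@[simp] lemma rs_fst (i : Fin 7) (η : ℕ → Bool) (w : ℕ → Slot) (s : ℕ) :
    (rs i η w s).1 = (w s).1 := by
  unfold rs; split_ifs <;> rfl

lemma rs_of_ne {i : Fin 7} (η : ℕ → Bool) {w : ℕ → Slot} {s : ℕ} (h : (w s).1 ≠ i) :
    rs i η w s = w s := by simp [rs, h]

lemma rs_rs (i : Fin 7) (η : ℕ → Bool) (w : ℕ → Slot) : rs i η (rs i η w) = w := by
  funext s
  by_cases h : (w s).1 = i
  · have : (rs i η w s) = ((w s).1, xor (w s).2 (η s)) := by simp [rs, h]
    show (if (rs i η w s).1 = i then ((rs i η w s).1, xor (rs i η w s).2 (η s)) else rs i η w s) = w s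
    rw [this]
    simp [h]
    exact Prod.ext h.symm rfl
  · rw [rs_of_ne η (by simpa using h), rs_of_ne η h]

/-- Rerandomising the bits of a class `i ≠ 0` does not change expectations. -/
theorem Ex_rs {t : ℕ} {i : Fin 7} (hi : i ≠ 0) (η : ℕ → Bool) (f : (ℕ → Slot) → ℝ) :
    Ex t (fun w => f (rs i η w)) = Ex t f := by
  unfold Ex
  congr 1
  let φ : (Fin t → Slot) → (Fin t → Slot) := fun w s =>
    if (w s).1 = i then ((w s).1, xor (w s).2 (η s)) else w s
  have hφ : ∀ w, ext (φ w) = rs i η (ext w) := by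
    intro w
    funext s
    by_cases hs : s < t
    · simp [ext, rs, φ, hs]
    · simp [ext, rs, hs, Ne.symm hi]
  have hinv : Function.Involutive φ := by
    intro w
    funext s
    have h1 : ext (φ (φ w)) s = ext w s := by rw [hφ, hφ, rs_rs]
    simpa [ext] using h1
  rw [← Equiv.sum_comp (hinv.toPerm φ)]
  refine sum_congr rfl fun w _ => ?_
  show f (rs i η (ext (φ w))) = f (ext w)
  rw [hφ, rs_rs]

theorem Pr_rs {t : ℕ} {i : Fin 7} (hi : i ≠ 0) (η : ℕ → Bool) (E : (ℕ → Slot) → Prop) :
    Pr t (fun w => E (rs i η w)) = Pr t E :=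
  Ex_rs hi η (fun w => if E w then 1 else 0)

lemma mv_rs {i : Fin 7} (h0 : i ≠ 0) (h1 : i ≠ 1) (η : ℕ → Bool) (w : ℕ → Slot) (s : ℕ) :
    mv (rs i η w s) = mv (w s) := by
  by_cases h : (w s).1 = i
  · have h' : (rs i η w s).1 = i := by simpa using h
    unfold mv
    have e1 : ∀ b, rs i η w s ≠ (0, b) := fun b hb => h0 (by rw [← h', hb])
    have e2 : ∀ b, rs i η w s ≠ (1, b) := fun b hb => h1 (by rw [← h', hb])
    have e3 : ∀ b, w s ≠ (0, b) := fun b hb => h0 (by rw [← h, hb])
    have e4 : ∀ b, w s ≠ (1, b) := fun b hb => h1 (by rw [← h, hb])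
    simp [e1, e2, e3, e4]
  · rw [rs_of_ne η h]

lemma cur_rs {i : Fin 7} (h0 : i ≠ 0) (h1 : i ≠ 1) (η : ℕ → Bool) (w : ℕ → Slot) (s : ℕ) :
    cur (rs i η w) s = cur w s :=
  sum_congr rfl fun j _ => mv_rs h0 h1 η w j

end Pool.Agent.Helper55.PC
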