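import Pool.Agent.Helper55.PC.Base

/-!
# The chain (MP_cf7fa9_pr)

Definition of the Cayley graph (of a semidirect product, written out explicitly) used in the
counterexample, through its seven moves, and the components of the driven chain.
-/

namespace Pool.Agent.Helper55.PC

open Finset
open scoped Classical

/-- the cycle of sites -/
abbrev Site (k L : ℕ) : Type := ZMod (k * (12 * L))

instance neZeroLen {k L : ℕ} [NeZero k] [NeZero L] : NeZero (k * (12 * L)) :=
  ⟨by have := NeZero.ne k; have := NeZero.ne L; positivity⟩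

/-- label vectors: `k` labels of `r` bits -/
abbrev Lbl (k r : ℕ) : Type := ZMod k → Fin r → ZMod 2

/-- index set of the gadget vectors: cell, test point (first or second), label vector -/
abbrev Idx (k r : ℕ) : Type := ZMod k × Bool × Lbl k r

/-- site number `u` of block `j` of the lattice based at `x` -/
def blk (k r L : ℕ) (x : Site k L) (j : ZMod k) (u : Fin r) : Site k L :=
  x + ((j.val * (12 * L) + u : ℕ) : Site k L)

/-- the two test points (offsets) of cell `j` -/
def tpt (k L : ℕ) (j : ZMod k) (i : Bool) : Site k L :=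
  ((j.val * (12 * L) + (if i then 8 * L else 4 * L) : ℕ) : Site k L)

/-- numbering of the labels -/
noncomputable def code (r : ℕ) : (Fin r → ZMod 2) ≃ Fin (2 ^ r) :=
  Fintype.equivFinOfCardEq (by simp [ZMod.card])

/-- the labels (of the lamp `(x, f)`) are not increasing at cell `j` -/
def badLbl {k r : ℕ} (z : Lbl k r) (j : ZMod k) : Prop := code r (z j) ≤ code r (z (j - 1))

variable {k r L : ℕ} {R U : Type} [Group R] [AddCommGroup U] [DistribMulAction R U]

/-- the generator `b`, as a function of the relative position and of the labels -/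
noncomputable def bfun [NeZero k] (u : Idx k r → U) (y : Site k L) (z : Lbl k r) : U :=
  ∑ j : ZMod k, ∑ i : Bool, if y = - tpt k L j i ∧ badLbl z j then u (j, i, z) else 0

/-- labels of the lamp `(x, f)` when the lamp configuration is `p` -/
def labs (x : Site k L) (f : Lbl k r) (p : Site k L → ZMod 2) : Lbl k r :=
  fun j v => f j v + p (blk k r L x j v)

/-- what is added to the big lamps by the generator `b` in the state `(p, c, ρ)` -/
noncomputable def kb [NeZero k] (u : Idx k r → U) (p : Site k L → ZMod 2) (c : Site k L) (ρ : R) :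
    Site k L × Lbl k r → U :=
  fun ω => ρ • bfun u (ω.1 - c) (labs ω.1 ω.2 p)

/-- states -/
abbrev St (k r L : ℕ) (R U : Type) : Type :=
  (Site k L × Lbl k r → U) × (Site k L → ZMod 2) × Site k L × R

/-- the seven moves -/
noncomputable def move [NeZero k] (s q : R) (u : Idx k r → U) (i : Fin 7) (x : St k r L R U) :
    St k r L R U :=
  if i = 0 then (x.1, x.2.1, x.2.2.1 + 1, x.2.2.2)
  else if i = 1 then (x.1, x.2.1, x.2.2.1 - 1, x.2.2.2)
  else if i = 2 then (x.1, x.2.1 + Pi.single x.2.2.1 1, x.2.2.1, x.2.2.2)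
  else if i = 3 then (x.1 + kb u x.2.1 x.2.2.1 x.2.2.2, x.2.1, x.2.2.1, x.2.2.2)
  else if i = 4 then (x.1, x.2.1, x.2.2.1, x.2.2.2 * s)
  else if i = 5 then (x.1, x.2.1, x.2.2.1, x.2.2.2 * q)
  else (x.1, x.2.1, x.2.2.1, x.2.2.2 * q⁻¹)

/-- one step of the driven chain -/
noncomputable def step [NeZero k] (s q : R) (u : Idx k r → U) (a : Slot) (x : St k r L R U) :
    St k r L R U :=
  if a.2 then move s q u a.1 x else x

/-- lamp configuration at time `t`, driven by the word `w`, started from lamps `p0`, cursor `c0` -/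
def lamp {ℓ : ℕ} (p0 : ZMod ℓ → ZMod 2) (c0 : ZMod ℓ) (w : ℕ → Slot) : ℕ → ZMod ℓ → ZMod 2
  | 0 => p0
  | t + 1 => fun y => lamp p0 c0 w t y +
      if w t = (2, true) ∧ c0 + (cur w t : ZMod ℓ) = y then 1 else 0

/-- the increment of the big lamps at a `b`-slot at time `t` -/
noncomputable def inc [NeZero k] (s q : R) (u : Idx k r → U) (p0 : Site k L → ZMod 2)
    (c0 : Site k L) (ρ0 : R) (w : ℕ → Slot) (t : ℕ) : Site k L × Lbl k r → U :=
  kb u (lamp p0 c0 w t) (c0 + (cur w t : Site k L)) (run (rstep s q) ρ0 w t)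

/-- The components of the driven chain. -/
theorem run_step [NeZero k] (s q : R) (u : Idx k r → U) (x : St k r L R U) (w : ℕ → Slot) (t : ℕ) :
    run (step s q u) x w t =
      (x.1 + ∑ i ∈ range t, (if w i = (3, true) then inc s q u x.2.1 x.2.2.1 x.2.2.2 w i else 0),
        lamp x.2.1 x.2.2.1 w t, x.2.2.1 + (cur w t : Site k L), run (rstep s q) x.2.2.2 w t) := by
  induction t with
  | zero => simp [run, lamp]
  | succ t ih =>
    rw [run, ih, sum_range_succ, cur_succ]
    have hl : lamp x.2.1 x.2.2.1 w (t + 1) = fun y => lamp x.2.1 x.2.2.1 w t y +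
      if w t = (2, true) ∧ x.2.2.1 + (cur w t : Site k L) = y then 1 else 0 := rfl
    rw [hl, run]
    obtain ⟨i, b, hw⟩ : ∃ i b, w t = (i, b) := ⟨_, _, rfl⟩
    rw [hw]
    cases b
    · simp [step, rstep, mv]
    · have hi : i = 0 ∨ i = 1 ∨ i = 2 ∨ i = 3 ∨ i = 4 ∨ i = 5 ∨ i = 6 := by
        fin_cases i <;> simp
      rcases hi with h | h | h | h | h | h | h <;> subst h
      · simp [step, rstep, mv, move, add_assoc]
      · simp [step, rstep, mv, move, sub_eq_add_neg, add_assoc]
      · simp only [step, rstep, mv, move]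
        simp
        funext y
        simp [Pi.single_apply, eq_comm]
      · simp [step, rstep, mv, move, inc, add_assoc]
      · simp [step, rstep, mv, move]
      · simp [step, rstep, mv, move]
      · simp [step, rstep, mv, move]

/-- sum over `b`-slots seen by a character -/
theorem char_run [NeZero k] (s q : R) (u : Idx k r → U) (x : St k r L R U) (w : ℕ → Slot) (t : ℕ)
    (ψ : (Site k L × Lbl k r → U) →+ ZMod 2) :
    ψ (run (step s q u) x w t).1 = ψ x.1 + ∑ i ∈ range t,
      (if w i = (3, true) then ψ (inc s q u x.2.1 x.2.2.1 x.2.2.2 w i) else 0) := by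
  rw [run_step, map_add, map_sum]
  congr 1
  refine sum_congr rfl fun i _ => ?_
  split_ifs <;> simp

end Pool.Agent.Helper55.PC
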