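import Mathlib

/-!
# Graph-theoretic definitions for MP_cf7fa9_pr

Lazy simple random walk on a finite graph, total variation mixing time, relaxation time,
vertex-transitivity, product condition, pre-cutoff.
-/

namespace Pool.Agent.Helper55.PC

open Finset Filter
open scoped Topology ENNReal

variable {V : Type} [Fintype V]

/-- The degree of a vertex. -/
noncomputable def deg (G : SimpleGraph V) (x : V) : ℕ := (G.neighborSet x).ncard

open Classical in
/-- Transition matrix of the lazy simple random walk: stay with probability `1/2`, move to each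
neighbour with probability `1/(2 deg x)`. -/
noncomputable def lazyP (G : SimpleGraph V) : Matrix V V ℝ :=
  Matrix.of fun x y => if x = y then 1 / 2 else if G.Adj x y then 1 / (2 * (deg G x : ℝ)) else 0

/-- The stationary distribution `π(x) = deg x / ∑_y deg y`. -/
noncomputable def statDist (G : SimpleGraph V) (x : V) : ℝ := (deg G x : ℝ) / ∑ y, (deg G y : ℝ)

/-- Total variation distance. -/
noncomputable def tvDist (μ ν : V → ℝ) : ℝ := (1 / 2) * ∑ y, |μ y - ν y|

open Classical in
/-- `tvAt G t x = ‖P^t(x,·) - π‖_TV`. -/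
noncomputable def tvAt (G : SimpleGraph V) (t : ℕ) (x : V) : ℝ :=
  tvDist (fun y => (lazyP G ^ t) x y) (statDist G)

/-- `tmix G ε` is the least `t` with `max_x ‖P^t(x,·) - π‖_TV ≤ ε`. -/
noncomputable def tmix (G : SimpleGraph V) (ε : ℝ) : ℕ := sInf {t : ℕ | ∀ x, tvAt G t x ≤ ε}

/-- The second largest eigenvalue of the transition matrix, i.e. the largest eigenvalue on the
space of functions orthogonal to the constants (with respect to `π`). -/
noncomputable def lambda2 (G : SimpleGraph V) : ℝ :=
  sSup {lam : ℝ | ∃ f : V → ℝ, f ≠ 0 ∧ ∑ x, statDist G x * f x = 0 ∧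
    ∀ x, ∑ y, lazyP G x y * f y = lam * f x}

/-- The relaxation time `1/(1-λ₂)`. -/
noncomputable def trel (G : SimpleGraph V) : ℝ := 1 / (1 - lambda2 G)

/-- A graph is vertex-transitive if its automorphism group acts transitively on the vertices. -/
def VertexTransitive (G : SimpleGraph V) : Prop := ∀ x y : V, ∃ φ : G ≃g G, φ x = y

/-- A finite graph with its vertex set. -/
structure FinGraph : Type 1 where
  /-- the vertex set -/
  V : Type
  /-- it is finite -/
  fin : Fintype V
  /-- the (simple) graph -/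
  G : SimpleGraph V

attribute [instance] FinGraph.fin

/-- The product condition `t_rel = o(t_mix)`, `t_mix = t_mix(1/4)`. -/
def ProductCondition (𝒢 : ℕ → FinGraph) : Prop :=
  (fun n => trel (𝒢 n).G) =o[atTop] (fun n => (tmix (𝒢 n).G (1 / 4) : ℝ))

/-- Pre-cutoff: `sup_{0<ε<1/2} limsup_n t_mix^{(n)}(ε) / t_mix^{(n)}(1-ε) < ∞`. -/
def PreCutoff (𝒢 : ℕ → FinGraph) : Prop :=
  (⨆ ε ∈ Set.Ioo (0 : ℝ) (1 / 2),
    limsup (fun n => (tmix (𝒢 n).G ε : ℝ≥0∞) / (tmix (𝒢 n).G (1 - ε) : ℝ≥0∞)) atTop) < ⊤

end Pool.Agent.Helper55.PC
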