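import Pool.Agent.Helper55.PC.Base
import Pool.Agent.Helper55.PC.GraphDefs
import Pool.Agent.Helper55.PC.Chain

/-!
# Events and bundled data used in the assembly (MP_cf7fa9_pr)
-/

namespace Pool.Agent.Helper55.PC

open Finset
open scoped Classical

/-- the event of `cluster_one` -/
def Served1 {ℓ : ℕ} (W : Pat) (c0 y : ZMod ℓ) (L t : ℕ) (w : ℕ → Slot) : Prop :=
  ∀ s1 sy s2 : ℕ, s1 ≤ sy → sy ≤ s2 → s2 ≤ t →
    L ≤ dst (c0 + (cur w s1 : ZMod ℓ) - y) → c0 + (cur w sy : ZMod ℓ) = y →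
    L ≤ dst (c0 + (cur w s2 : ZMod ℓ) - y) →
    ∃ s, s1 ≤ s ∧ s + W.n ≤ s2 ∧ c0 + (cur w s : ZMod ℓ) = y ∧ W.occ w s

/-- the event of `cluster_two` -/
def Served2 {ℓ : ℕ} (W : Pat) (c0 y y' : ZMod ℓ) (L t : ℕ) (w : ℕ → Slot) : Prop :=
  ∀ s1 sy sm sy' s2 : ℕ, s1 ≤ sy → sy ≤ sm → sm ≤ sy' → sy' ≤ s2 → s2 ≤ t →
    L ≤ dst (c0 + (cur w s1 : ZMod ℓ) - y) → L ≤ dst (c0 + (cur w s1 : ZMod ℓ) - y') →
    c0 + (cur w sy : ZMod ℓ) = y → L ≤ dst (c0 + (cur w sm : ZMod ℓ) - y) →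
    c0 + (cur w sy' : ZMod ℓ) = y' → L ≤ dst (c0 + (cur w s2 : ZMod ℓ) - y') →
    ∃ s, s1 ≤ s ∧ s + W.n ≤ s2 ∧
      (c0 + (cur w s : ZMod ℓ) = y ∨ c0 + (cur w s : ZMod ℓ) = y') ∧ W.occ w s

/-- the event of `run_success` -/
def RunOK (m R t : ℕ) (w : ℕ → Slot) : Prop :=
  ∃ s0 s1 : ℕ, s0 ≤ s1 ∧ s1 ≤ t ∧ cur w s1 - cur w s0 = (R : ℤ) ∧
    ∀ u v, s0 ≤ u → u ≤ v → v ≤ s1 → cur w u - cur w v < (m : ℤ)

/-- the event of `leg_survive` -/
def Legs (m R t : ℕ) (w : ℕ → Slot) : Prop :=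
  ∀ s s', s ≤ s' → s' ≤ t →
    ((R : ℤ) ≤ cur w s' - cur w s →
      ∃ u v, s ≤ u ∧ u ≤ v ∧ v ≤ s' ∧ (m : ℤ) ≤ cur w u - cur w v) ∧
    ((R : ℤ) ≤ cur w s - cur w s' →
      ∃ u v, s ≤ u ∧ u ≤ v ∧ v ≤ s' ∧ (m : ℤ) ≤ cur w v - cur w u)

/-- the event of `marks` -/
def MarksOK (L n0 t : ℕ) (w : ℕ → Slot) : Prop :=
  ∃ Mk : Finset ℕ, Mk.card ≤ n0 ∧ ∀ s s', s < s' → s' ≤ t →
    2 * (L : ℤ) ≤ |cur w s' - cur w s| → ∃ m ∈ Mk, s < m ∧ m ≤ s'

/-- properties of the gadget and of the universal pattern, bundled -/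
structure GW {k r : ℕ} {R U : Type} [Group R] [Fintype R] [AddCommGroup U] [Fintype U]
    [DistribMulAction R U] [NeZero k] (s q : R) (u : Idx k r → U) (W : Pat) : Prop where
  gen : Subgroup.closure {s, q} = ⊤
  two : ∀ v : U, v + v = 0
  star : ∀ χ : Idx k r → (U →+ ZMod 2), (∃ i, χ i ≠ 0) → ∃ a : R, ∑ i, χ i (a • u i) ≠ 0
  noE : ∀ i < W.n, ∀ a, W.P i a → a.1 ≠ 2
  inv3 : ∀ i < W.n, ∀ b b', W.P i (3, b) → W.P i (3, b')
  univ : ∀ (w : ℕ → Slot) (σ : ℕ) (ρ0 : R), W.occ w σ → ∀ a : R,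
        ∃ s', σ ≤ s' ∧ s' < σ + W.n ∧ (w s').1 = 3 ∧ run (rstep s q) ρ0 w s' = a

section
variable {k r L : ℕ} [NeZero k] {R U : Type} [Group R] [AddCommGroup U] [DistribMulAction R U]

/-- the character `ψ` of the big lamps is killed before time `t` -/
def Killed (s q : R) (u : Idx k r → U) (p0 : Site k L → ZMod 2) (c0 : Site k L) (ρ0 : R)
    (ψ : (Site k L × Lbl k r → U) →+ ZMod 2) (t : ℕ) (w : ℕ → Slot) : Prop :=
  ∃ s' < t, (w s').1 = 3 ∧ ψ (inc s q u p0 c0 ρ0 w s') ≠ 0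

/-- the character `φ` of the small lamps is refreshed before time `t` -/
def Fresh (c0 : Site k L) (φ : (Site k L → ZMod 2) →+ ZMod 2) (t : ℕ) (w : ℕ → Slot) : Prop :=
  ∃ s' < t, (w s').1 = 2 ∧ φ (Pi.single (c0 + (cur w s' : Site k L)) 1) ≠ 0

/-- the lamp `(x, f)` is never bad when the cursor is at one of its test points, before time `t`
(start: all small lamps off, cursor at `0`) -/
def NB (x : Site k L) (f : Lbl k r) (t : ℕ) (w : ℕ → Slot) : Prop :=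
  ∀ s < t, ∀ (j : ZMod k) (i : Bool), (cur w s : Site k L) = x + tpt k L j i →
    ¬ badLbl (labs x f (lamp 0 0 w s)) j

end

/-- test offsets -/
def isTest (L : ℕ) (z : ℤ) : Prop :=
  ∃ J : ℤ, z = J * (12 * L) + 4 * L ∨ z = J * (12 * L) + 8 * L

/-- last time `≤ s` at which the cursor was at a test point of the lattice based at `x`
(`0` if there is none) -/
noncomputable def pv (L : ℕ) (x : ℤ) (w : ℕ → Slot) : ℕ → ℕ
  | 0 => 0
  | s + 1 => if isTest L (cur w (s + 1) - x) then s + 1 else pv L x w s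

/-- the base points used in the lower bound (as natural numbers in `[L, 2L)`) -/
def X0 (r L : ℕ) : Finset ℕ := (range (L / r)).image (fun i => L + r * i)

/-- keys (site, last test visit) of the lamp slots at the block sites of the lattice based at `X` -/
noncomputable def keys (k r L t : ℕ) (w : ℕ → Slot) (X : ℕ) : Finset (Site k L × ℕ) :=
  ((range t).filter (fun s => (w s).1 = 2 ∧
    ∃ j v, ((cur w s : ℤ) : Site k L) = blk k r L (X : Site k L) j v)).image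
    (fun s => (((cur w s : ℤ) : Site k L), pv L (X : ℤ) w s))

/-- error term in the lower bound -/
noncomputable def errL (k r L n0 t : ℕ) : ℝ :=
  t / (7 * (L : ℝ) ^ 2 * (n0 + 1)) + 28 * (k * r) / L * (1 + t / (7 * (L : ℝ) ^ 2)) +
    8 * 2 ^ (k * r * (n0 + 1)) / ((L / r : ℕ) : ℝ) +
    128 * 4 ^ (k * r + k * r * (n0 + 1)) / ((L / r : ℕ) : ℝ)

end Pool.Agent.Helper55.PC
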