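import Pool.Agent.Helper55.PC.Events
import Pool.Agent.Helper95.PC.Universal
import Pool.Agent.Helper19.PC.ExistsGadget
import Pool.Agent.Helper34.PC.RunSuccess
import Pool.Agent.Helper81.PC.ClusterTwo
import Pool.Agent.Helper81.PC.Coupling
import Pool.Agent.Helper81.PC.EigenLe
import Pool.Agent.Helper83.PC.FinalCore
import Pool.Agent.Helper90.PC.WalkGraph
import Pool.Agent.Helper82.PC.ChainOk
import Pool.Agent.Helper40.PC.Good
import Pool.Agent.Helper7.PC.Relax
import Pool.Agent.Helper97.PC.TvUpper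
import Pool.Agent.Helper81.PC.TvLowerFinal
import Pool.Agent.Helper1.PC.Params

/-!
# Final assembly (MP_cf7fa9_pr)

The core estimates for the chain and the theorem `no_precutoff`: a sequence of connected
vertex-transitive graphs of degree 7 with the product condition and without pre-cutoff.
-/

namespace Pool.Agent.Helper55.PC

open Finset Filter
open scoped Topology ENNReal Classical

/-! ## Invariance of the events under rerandomising bits -/

lemma RunOK_rs {i : Fin 7} (h0 : i ≠ 0) (h1 : i ≠ 1) (η : ℕ → Bool) (m R t : ℕ) (w : ℕ → Slot) :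
    RunOK m R t (rs i η w) ↔ RunOK m R t w := by
  unfold RunOK; simp only [cur_rs h0 h1]

lemma Served2_rs {ℓ : ℕ} {i : Fin 7} (h0 : i ≠ 0) (h1 : i ≠ 1) (η : ℕ → Bool) {W : Pat}
    {w : ℕ → Slot} (hW : ∀ s, W.occ (rs i η w) s ↔ W.occ w s) (c0 y y' : ZMod ℓ) (L t : ℕ) :
    Served2 W c0 y y' L t (rs i η w) ↔ Served2 W c0 y y' L t w := by
  unfold Served2; simp only [cur_rs h0 h1, hW]

lemma occ_rs_two {W : Pat} (hW : ∀ i < W.n, ∀ a, W.P i a → a.1 ≠ 2) (η : ℕ → Bool) (w : ℕ → Slot)
    (s : ℕ) : W.occ (rs 2 η w) s ↔ W.occ w s := by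
  unfold Pat.occ
  constructor
  · intro h i hi
    have h1 := h i hi
    have h2 : (w (s + i)).1 ≠ 2 := by simpa using hW i hi _ h1
    rwa [rs_of_ne η h2] at h1
  · intro h i hi
    have h1 := h i hi
    rwa [rs_of_ne η (hW i hi _ h1)]

lemma occ_rs_three {W : Pat} (hW : ∀ i < W.n, ∀ b b', W.P i (3, b) → W.P i (3, b')) (η : ℕ → Bool)
    (w : ℕ → Slot) (s : ℕ) : W.occ (rs 3 η w) s ↔ W.occ w s := by
  have key : ∀ (w : ℕ → Slot), W.occ w s → W.occ (rs 3 η w) s := by
    intro w h i hi
    have h1 := h i hi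
    by_cases h3 : (w (s + i)).1 = 3
    · have e1 : w (s + i) = (3, (w (s + i)).2) := Prod.ext h3 rfl
      have e2 : rs 3 η w (s + i) = (3, (rs 3 η w (s + i)).2) := Prod.ext (by simpa using h3) rfl
      rw [e2]
      rw [e1] at h1
      exact hW i hi _ _ h1
    · rwa [rs_of_ne η h3]
  refine ⟨fun h => ?_, key w⟩
  have := key _ h
  rwa [rs_rs] at this

lemma occ_patE_rs (i : Fin 7) (η : ℕ → Bool) (w : ℕ → Slot) (s : ℕ) :
    patE.occ (rs i η w) s ↔ patE.occ w s := by
  unfold Pat.occ patE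
  simp

/-- connectedness from mixing -/
lemma connected_of_tv {V : Type} [Fintype V] [Nonempty V] (G : SimpleGraph V)
    (m : V → V → ℝ) (hm1 : ∀ x, ∑ y, m x y = 1)
    (hr : ∀ x y, m x y ≠ 0 → G.Reachable x y)
    (htv : ∀ x, (1 / 2) * ∑ y, |m x y - 1 / (Fintype.card V : ℝ)| ≤ 3 / 8) : G.Connected := by
  classical
  have hN : (0 : ℝ) < Fintype.card V := by exact_mod_cast Fintype.card_pos
  -- TV ≥ fraction of unreachable vertices
  have key : ∀ x, ((univ.filter (fun z => ¬ G.Reachable x z)).card : ℝ) / Fintype.card V ≤ 3 / 8 := by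
    intro x
    refine le_trans ?_ (htv x)
    set N : ℝ := (Fintype.card V : ℝ) with hNdef
    set A := univ.filter (fun z => G.Reachable x z)
    set B := univ.filter (fun z => ¬ G.Reachable x z)
    have hsplit : ∀ F : V → ℝ, ∑ y, F y = ∑ y ∈ A, F y + ∑ y ∈ B, F y := fun F =>
      (Finset.sum_filter_add_sum_filter_not univ (fun z => G.Reachable x z) F).symm
    have hB0 : ∀ y ∈ B, m x y = 0 := by
      intro y hy
      by_contra h
      exact (mem_filter.1 hy).2 (hr x y h)
    have hA1 : ∑ y ∈ A, m x y = 1 := by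
      have := hm1 x
      rw [hsplit, sum_eq_zero hB0, add_zero] at this
      exact this
    have hcard : (A.card : ℝ) + B.card = N := by
      have := Finset.card_filter_add_card_filter_not (s := (univ : Finset V))
        (p := fun z => G.Reachable x z)
      rw [hNdef, ← Finset.card_univ]
      exact_mod_cast this
    have h1 : ∑ y ∈ A, |m x y - 1 / N| ≥ 1 - A.card / N := by
      calc ∑ y ∈ A, |m x y - 1 / N| ≥ ∑ y ∈ A, (m x y - 1 / N) :=
            sum_le_sum fun y _ => le_abs_self _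
        _ = 1 - A.card / N := by
            rw [sum_sub_distrib, hA1, sum_const, nsmul_eq_mul]; ring
    have h2 : ∑ y ∈ B, |m x y - 1 / N| = B.card / N := by
      rw [sum_congr rfl (g := fun _ => 1 / N)]
      · rw [sum_const, nsmul_eq_mul]; ring
      · intro y hy
        rw [hB0 y hy, zero_sub, abs_neg, abs_of_pos (by positivity)]
    rw [hsplit, h2]
    have h3 : (1 : ℝ) = A.card / N + B.card / N := by
      rw [← add_div, hcard, div_self hN.ne']
    linarith
  refine ⟨fun x y => ?_⟩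
  by_contra hxy
  have h1 := key x
  have h2 := key y
  have hcover : (univ : Finset V) ⊆ (univ.filter (fun z => ¬ G.Reachable x z)) ∪
      (univ.filter (fun z => ¬ G.Reachable y z)) := by
    intro z _
    simp only [mem_union, mem_filter, mem_univ, true_and]
    by_contra h
    push Not at h
    exact hxy (h.1.trans h.2.symm)
  have h3 := (card_le_card hcover).trans (card_union_le _ _)
  rw [card_univ] at h3
  have h4 : (Fintype.card V : ℝ) ≤ (univ.filter (fun z => ¬ G.Reachable x z)).card +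
      (univ.filter (fun z => ¬ G.Reachable y z)).card := by exact_mod_cast h3
  rw [div_le_iff₀ hN] at h1 h2
  linarith

lemma Pr_sum_one {S : Type} [Fintype S] (t : ℕ) (X : (ℕ → Slot) → S) :
    ∑ y, Pr t (fun w => X w = y) = 1 := by
  unfold Pr
  rw [← Ex_sum]
  refine Eq.trans ?_ (Ex_const (t := t) 1)
  congr 1
  funext w
  rw [Finset.sum_eq_single (X w)]
  · simp
  · intro b _ hb; simp [Ne.symm hb]
  · simp

lemma Pr_false {t : ℕ} {E : (ℕ → Slot) → Prop} (h : ∀ w, ¬ E w) : Pr t E = 0 := by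
  refine le_antisymm ?_ (Pr_nonneg _)
  unfold Pr
  refine (Ex_mono (g := fun _ => (0:ℝ)) fun w => ?_).trans (Ex_const 0).le
  simp [h w]

lemma reach_run {k r L : ℕ} [NeZero k] {R U : Type} [Group R] [AddCommGroup U]
    [DistribMulAction R U] (s q : R) (u : Idx k r → U) (G : SimpleGraph (St k r L R U))
    (hadj : ∀ x y, G.Adj x y ↔ ∃ i, move s q u i x = y) (x : St k r L R U) (w : ℕ → Slot) (t : ℕ) :
    G.Reachable x (run (step s q u) x w t) := by
  induction t with
  | zero => exact SimpleGraph.Reachable.refl _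
  | succ t ih =>
    refine ih.trans ?_
    rw [run]
    unfold step
    split_ifs
    · exact SimpleGraph.Adj.reachable ((hadj _ _).2 ⟨_, rfl⟩)
    · exact SimpleGraph.Reachable.refl _

theorem core_estimates : ∃ C : ℝ, 0 < C ∧ ∀ n : ℕ, ∃ (V : Type) (_ : Fintype V) (G : SimpleGraph V)
      (t1 : ℕ),
      G.Connected ∧ VertexTransitive G ∧ (∀ x, deg G x = 7) ∧ 0 < t1 ∧
      (∀ x, tvAt G t1 x ≤ 3 / 8) ∧
      (∀ t : ℕ, t ≤ n * t1 → ∃ x, Real.exp (-(C * t / t1)) - 1 / (n + 1) ≤ tvAt G t x) ∧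
      |trel G| ≤ t1 / (n + 1) := by
  obtain ⟨C, hC, hP⟩ := params
  refine ⟨C, hC, fun n => ?_⟩
  obtain ⟨k, r, hk9, hr, h2r, hP⟩ := hP n
  have : NeZero k := ⟨by omega⟩
  obtain ⟨R, U, iGR, iFR, iAU, iFU, iDA, s, q, u, hs, hss, hq, hgen, htwo, hu, hstar⟩ :=
    exists_gadget (Idx k r)
  obtain ⟨W, hW2, hW3, hWu⟩ := universal_pat2 s q hgen
  obtain ⟨T0, hT0⟩ := coupling s q hgen (1 / 16) (by norm_num)
  obtain ⟨L, n0, t0, t1, hL1, hrL, hWL, h14, hT0t0, hT0t1, ht0, ht1, hrunp, hu1, hu2, hc1, hc0, hR,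
    htrel, m, R', θ, hm, hR', hθ, hθ1, hθ2, hlow⟩ := hP W.n T0
  have : NeZero L := ⟨by omega⟩
  have hG : GW s q u W := ⟨hgen, htwo, hstar, hW2, hW3, hWu⟩
  obtain ⟨hinv, hne, hinj, htrans⟩ := chain_ok (L := L) s q hs hss hq htwo u hu
  obtain ⟨G, hadj, hvt, hdeg, htv, heig⟩ := walk_graph (move s q u (L := L)) hinv hne hinj htrans
  have hstep : (fun (a : Slot) (z : St k r L R U) => if a.2 then move s q u a.1 z else z) =
      step s q u := rfl
  rw [hstep] at htv heig
  have hℓ2 : 2 ≤ k * (12 * L) := by nlinarith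
  have hk3 : 3 ≤ k := by omega
  have hkr2 : 2 * k + 8 ≤ 2 ^ r := by rw [h2r]; nlinarith
  have hkr3 : 3 * k ≤ 2 ^ r := by rw [h2r]; nlinarith
  set ℓr : ℝ := ((k * (12 * L) : ℕ) : ℝ) with hℓr
  -- the upper bound
  have hup : ∀ x, tvAt G t1 x ≤ 3 / 8 := by
    intro x
    rw [htv]
    set good : (ℕ → Slot) → Prop := fun w =>
      RunOK ((k - 2) * (12 * L)) ((2 ^ r + 3) * (12 * L)) t1 w ∧
      (∀ y : Site k L, Served2 W x.2.2.1 y (y + ((4 * L : ℕ) : Site k L)) L t1 w) ∧
      (∀ y : Site k L, Served2 patE x.2.2.1 y y L t1 w) with hgood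
    have ha : Pr t1 (fun w => ¬ good w) ≤ 1 / 8 + 1 / 32 + 1 / 32 := by
      have h1 : Pr t1 (fun w => ¬ good w) ≤
          Pr t1 (fun w => ¬ RunOK ((k - 2) * (12 * L)) ((2 ^ r + 3) * (12 * L)) t1 w) +
          Pr t1 (fun w => ∃ y ∈ (univ : Finset (Site k L)),
            ¬ Served2 W x.2.2.1 y (y + ((4 * L : ℕ) : Site k L)) L t1 w) +
          Pr t1 (fun w => ∃ y ∈ (univ : Finset (Site k L)),
            ¬ Served2 patE x.2.2.1 y y L t1 w) := by
        refine le_trans (Pr_mono ?_) ((Pr_or_le _ _).trans (add_le_add_left (Pr_or_le _ _) _))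
        intro w hw
        simp only [hgood] at hw
        by_contra hcon
        push Not at hcon
        apply hw
        refine ⟨hcon.1.1, fun y => hcon.1.2 y (mem_univ _), fun y => hcon.2 y (mem_univ _)⟩
      refine h1.trans ?_
      have hcard : (univ : Finset (Site k L)).card = k * (12 * L) := by
        rw [card_univ, ZMod.card]
      refine add_le_add (add_le_add ?_ ?_) ?_
      · exact le_trans (run_success _ _ (by
          have : 1 ≤ k - 2 := by omega
          nlinarith) t1 ht1) hrunp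
      · refine (Pr_exists_le _ _).trans ?_
        refine (sum_le_sum fun y _ => cluster_two (k * (12 * L)) L hL1 (by nlinarith) W hWL x.2.2.1 y
          (y + ((4 * L : ℕ) : Site k L)) (Or.inr ?_) t1).trans ?_
        · rw [add_sub_cancel_left]
          unfold dst
          rw [ZMod.val_natCast, Nat.mod_eq_of_lt (by nlinarith)]
          rw [le_min_iff]
          constructor
          · omega
          · have : 12 * L ≤ k * (12 * L) := by nlinarith
            omega
        · rw [sum_const, hcard, nsmul_eq_mul]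
          exact hu1
      · refine (Pr_exists_le _ _).trans ?_
        refine (sum_le_sum fun y _ => cluster_two (k * (12 * L)) L hL1 (by nlinarith) patE
          (by simpa [patE] using h14) x.2.2.1 y y (Or.inl rfl) t1).trans ?_
        rw [sum_const, hcard, nsmul_eq_mul]
        have : (14 : ℝ) ^ patE.n = 14 := by simp [patE]
        rw [this]
        exact hu2
    have hb : ∀ F : Site k L → R → ℝ, (∀ c ρ, |F c ρ| ≤ 1) → ∀ c c' ρ ρ',
      |Ex t1 (fun w => F (c + (cur w t1 : Site k L)) (run (rstep s q) ρ w t1)) -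
        Ex t1 (fun w => F (c' + (cur w t1 : Site k L)) (run (rstep s q) ρ' w t1))| ≤ 1 / 8 := by
      intro F hF c c' ρ ρ'
      refine (hT0 _ hℓ2 t1 hT0t1 F hF c c' ρ ρ').trans ?_
      linarith
    have := tv_upper hG t1 _ _ x good
      (fun η w => by
        simp only [hgood, RunOK_rs (i := 2) (by decide) (by decide),
          Served2_rs (i := 2) (by decide) (by decide) η (occ_rs_two hW2 η w),
          Served2_rs (i := 2) (by decide) (by decide) η (occ_patE_rs 2 η w)])
      (fun η w => by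
        simp only [hgood, RunOK_rs (i := 3) (by decide) (by decide),
          Served2_rs (i := 3) (by decide) (by decide) η (occ_rs_three hW3 η w),
          Served2_rs (i := 3) (by decide) (by decide) η (occ_patE_rs 3 η w)])
      (fun w hw ψ hψ => good_kill hk3 hr hrL hG _ _ _ t1 w hw.1 hw.2.1 ψ hψ)
      (fun w hw φ hφ => good_fresh hk3 hkr3 _ t1 w hw.1 hw.2.2 φ hφ) ha hb
    linarith
  refine ⟨St k r L R U, inferInstance, G, t1, ?_, hvt, hdeg, ht1, hup, ?_, ?_⟩
  · -- connected
    have : Nonempty (St k r L R U) := ⟨(0, 0, 0, 1)⟩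
    refine connected_of_tv G (fun x y => Pr t1 (fun w => run (step s q u) x w t1 = y))
      (fun x => Pr_sum_one t1 _) ?_ (fun x => by rw [← htv]; exact hup x)
    intro x y hxy
    -- some word leads from x to y
    have hex : ∃ w : ℕ → Slot, run (step s q u) x w t1 = y := by
      by_contra hcon
      push Not at hcon
      exact hxy (Pr_false fun w => hcon w)
    obtain ⟨w, hw⟩ := hex
    rw [← hw]
    exact reach_run s q u G hadj x w t1
  · -- lower bound
    intro t ht
    refine ⟨(0, 0, 0, 1), ?_⟩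
    rw [htv]
    exact (hlow t ht).trans (tv_lower_final hG hu hk3 hr hrL hkr2 t n0 m R' hm hR' θ hθ hθ1 hθ2)
  · -- relaxation time
    refine le_trans (trel_le G hdeg (t0 * 2 ^ (r + 1)) ?_ ?_) htrel
    · have h1 : (1:ℝ) ≤ t0 := by exact_mod_cast ht0
      have h2 : (1:ℝ) ≤ 2 ^ (r + 1) := one_le_pow₀ (by norm_num)
      nlinarith
    · intro lam f hf hf0 hPf
      have h2 : (2:ℝ) ^ (r + 1) ≥ 4 := by
        calc (2:ℝ) ^ (r + 1) ≥ 2 ^ (1 + 1) := by gcongr <;> norm_num
          _ = 4 := by norm_num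
      have hδ : (1:ℝ) / 2 ^ (r + 1) ≤ 1 / 4 := by
        apply one_div_le_one_div_of_le (by norm_num) h2
      have := eigen_le hG t0 (1 / 2 ^ (r + 1)) (by positivity) (by linarith)
        (fun p0 c0 ρ0 ψ hψ => relax_kill (by omega) hr hrL hG p0 c0 ρ0 ψ hψ t0 hR)
        (fun c0 φ hφ => (relax_fresh c0 φ hφ t0 (by
          refine le_trans ?_ hR
          have h1 : (1:ℝ) ≤ r := by exact_mod_cast hr
          have h3 : 0 ≤ 2 * ℓr ^ 2 + 28 * ℓr := by positivity
          have h4 : 0 ≤ (2 * ℓr ^ 2 + 2 * ℓr * 14 ^ W.n) := by positivity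
          nlinarith)).trans (by linarith))
        (fun F hF c c' ρ ρ' => (hT0 _ hℓ2 t0 hT0t0 F hF c c' ρ ρ').trans (by linarith))
        lam f hf hf0 (fun t x => heig lam f hPf t x)
      refine this.trans (le_of_eq ?_)
      rw [one_div, div_eq_mul_inv, one_div, mul_inv, mul_comm]

theorem no_precutoff : ∃ 𝒢 : ℕ → FinGraph, (∀ n, (𝒢 n).G.Connected) ∧
    (∀ n, VertexTransitive (𝒢 n).G) ∧
      (∀ n x, deg (𝒢 n).G x = 7) ∧ ProductCondition 𝒢 ∧ ¬ PreCutoff 𝒢 := by
  obtain ⟨C, hC, h⟩ := core_estimates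
  exact final_of_core C hC h

end Pool.Agent.Helper55.PC
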